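import Pool.Agent.Lib.MP_72e2e6_nt.P3.U.All
import Pool.Agent.Lib.MP_72e2e6_nt.P3.N.Itg
import Pool.Agent.Lib.MP_72e2e6_nt.P4.F.FinM
import Pool.Agent.Lib.MP_72e2e6_nt.P4.F.GdZ
import Pool.Agent.Lib.MP_72e2e6_nt.P4.F.KrM
import Pool.Agent.Lib.MP_72e2e6_nt.P4.F.Lti
import Pool.Agent.Lib.MP_72e2e6_nt.P4.F.OneP
import Pool.Agent.Lib.MP_72e2e6_nt.P4.F.OneT
import Pool.Agent.Lib.MP_72e2e6_nt.P4.F.PsC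
import Pool.Agent.Lib.MP_72e2e6_nt.P4.F.Rdi
import Pool.Agent.Lib.MP_72e2e6_nt.P4.F.Rex
import Pool.Agent.Lib.MP_72e2e6_nt.P4.F.ThmM
import Pool.Agent.Lib.MP_72e2e6_nt.P4.F.UniM
import Pool.Agent.Lib.MP_72e2e6_nt.P4.F.VchG
import Pool.Agent.Lib.MP_72e2e6_nt.P4.R.Cmx
import Pool.Agent.Lib.MP_72e2e6_nt.P4.R.Lfo
import Pool.Agent.Lib.MP_72e2e6_nt.P4.R.Nsb
import Pool.Agent.Lib.MP_72e2e6_nt.P4.R.Ozb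
import Pool.Agent.Lib.MP_72e2e6_nt.P4.R.PrA
import Pool.Agent.Lib.MP_72e2e6_nt.P4.R.PrE
import Pool.Agent.Lib.MP_72e2e6_nt.P4.R.PrI
import Pool.Agent.Lib.MP_72e2e6_nt.P4.R.Rdf
import Pool.Agent.Lib.MP_72e2e6_nt.P4.T.Bfn
import Pool.Agent.Lib.MP_72e2e6_nt.P4.T.Dcg
import Pool.Agent.Lib.MP_72e2e6_nt.P4.T.DpM
import Pool.Agent.Lib.MP_72e2e6_nt.P4.T.GcM
import Pool.Agent.Lib.MP_72e2e6_nt.P4.T.GfM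
import Pool.Agent.Lib.MP_72e2e6_nt.P4.T.HsM
import Pool.Agent.Lib.MP_72e2e6_nt.P4.T.Ial
import Pool.Agent.Lib.MP_72e2e6_nt.P4.T.IsO
import Pool.Agent.Lib.MP_72e2e6_nt.P4.T.Jex
import Pool.Agent.Lib.MP_72e2e6_nt.P4.T.Jgl
import Pool.Agent.Lib.MP_72e2e6_nt.P4.T.OmM
import Pool.Agent.Lib.MP_72e2e6_nt.P4.T.PiM
import Pool.Agent.Lib.MP_72e2e6_nt.P4.T.Plm
import Pool.Agent.Lib.MP_72e2e6_nt.P4.T.PwM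
import Pool.Agent.Lib.MP_72e2e6_nt.P4.T.QPm
import Pool.Agent.Lib.MP_72e2e6_nt.P4.T.ShA
import Pool.Agent.Lib.MP_72e2e6_nt.P4.T.ShF
import Pool.Agent.Lib.MP_72e2e6_nt.P4.T.StD
import Pool.Agent.Lib.MP_72e2e6_nt.P4.T.Stb
import Pool.Agent.Lib.MP_72e2e6_nt.P4.T.Tow
import Pool.Agent.Lib.MP_72e2e6_nt.P4.T.TrM
import Pool.Agent.Lib.MP_72e2e6_nt.P4.T.Trn
import Pool.Agent.Lib.MP_72e2e6_nt.P4.T.Twm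
import Pool.Agent.Lib.MP_72e2e6_nt.P4.V.Asm
import Pool.Agent.Lib.MP_72e2e6_nt.P4.V.Bgz
import Pool.Agent.Lib.MP_72e2e6_nt.P4.V.Bsx
import Pool.Agent.Lib.MP_72e2e6_nt.P4.V.Cdx
import Pool.Agent.Lib.MP_72e2e6_nt.P4.V.Fnm
import Pool.Agent.Lib.MP_72e2e6_nt.P4.V.Fnp
import Pool.Agent.Lib.MP_72e2e6_nt.P4.V.G3z
import Pool.Agent.Lib.MP_72e2e6_nt.P4.V.Had
import Pool.Agent.Lib.MP_72e2e6_nt.P4.V.Lcu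
import Pool.Agent.Lib.MP_72e2e6_nt.P4.V.Ndm
import Pool.Agent.Lib.MP_72e2e6_nt.P4.V.Ndx
import Pool.Agent.Lib.MP_72e2e6_nt.P4.V.Ndz
import Pool.Agent.Lib.MP_72e2e6_nt.P4.V.Nnz
import Pool.Agent.Lib.MP_72e2e6_nt.P4.V.Oin
import Pool.Agent.Lib.MP_72e2e6_nt.P4.V.Rep
import Pool.Agent.Lib.MP_72e2e6_nt.P4.V.Rlm
import Pool.Agent.Lib.MP_72e2e6_nt.P4.V.Rls
import Pool.Agent.Lib.MP_72e2e6_nt.P4.V.Sac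
import Pool.Agent.Lib.MP_72e2e6_nt.P4.V.Spe
import Pool.Agent.Lib.MP_72e2e6_nt.P4.V.Trc
import Pool.Agent.Lib.MP_72e2e6_nt.P4.V.Vaf
import Pool.Agent.Lib.MP_72e2e6_nt.P4.Z.Act3
import Pool.Agent.Lib.MP_72e2e6_nt.P4.Z.Chz
import Pool.Agent.Lib.MP_72e2e6_nt.P4.Z.Cnt3
import Pool.Agent.Lib.MP_72e2e6_nt.P4.Z.Der3
import Pool.Agent.Lib.MP_72e2e6_nt.P4.Z.EqM3
import Pool.Agent.Lib.MP_72e2e6_nt.P4.Z.Kdl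
import Pool.Agent.Lib.MP_72e2e6_nt.P4.Z.Lin3
import Pool.Agent.Lib.MP_72e2e6_nt.P4.Z.Rsn
import Pool.Agent.Lib.MP_72e2e6_nt.P4.Z.Rzc
import Pool.Agent.Lib.MP_72e2e6_nt.P4.Z.Spn
import Pool.Agent.Lib.MP_72e2e6_nt.P4.Z.Sub3
import Pool.Agent.Lib.MP_72e2e6_nt.P4.Z.ThA3
import Pool.Agent.Lib.MP_72e2e6_nt.P4.Z.The3
import Pool.Agent.Lib.MP_72e2e6_nt.P4.Z.Vd1
import Pool.Agent.Lib.MP_72e2e6_nt.P4.Z.Zac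

/-!
# MP_72e2e6_nt, theorem T4: assembly of the modules
-/

namespace Pool.Agent.MP72T4

theorem aG_ItgP : MP72P.S_Itg :=
  MP72P.tItg MP72A.aP_Na MP72A.aP_Exn

theorem aG_Zac : MP72G.S_Zac :=
  MP72G.tZac

theorem aG_Rzc : MP72G.S_Rzc :=
  MP72G.tRzc aG_Zac

theorem aG_Lin3 : MP72G.S_Lin3 :=
  MP72G.tLin3 MP72A.aP_Uni2

theorem aG_Act3 : MP72G.S_Act3 :=
  MP72G.tAct3

theorem aG_Der3 : MP72G.S_Der3 :=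
  MP72G.tDer3 MP72A.aP_Uni2 aG_Zac aG_Rzc aG_Lin3 aG_Act3

theorem aG_The3 : MP72G.S_The3 :=
  MP72G.tThe3 aG_Lin3 aG_Act3

theorem aG_Vd1 : MP72G.S_Vd1 :=
  MP72G.tVd1

theorem aG_Kdl : MP72G.S_Kdl :=
  MP72G.tKdl aG_The3

theorem aG_EqM3 : MP72G.S_EqM3 :=
  MP72G.tEqM3 aG_Zac aG_Rzc aG_Lin3 aG_Der3 aG_Vd1 aG_Kdl

theorem aG_Chz : MP72G.S_Chz :=
  MP72G.tChz aG_Zac aG_Rzc

theorem aG_Cnt3 : MP72G.S_Cnt3 :=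
  MP72G.tCnt3 aG_Zac aG_Rzc aG_Lin3 aG_EqM3 aG_Chz

theorem aG_Spn : MP72G.S_Spn :=
  MP72G.tSpn

theorem aG_Rsn : MP72G.S_Rsn :=
  MP72G.tRsn aG_Zac

theorem aG_Sub3 : MP72G.S_Sub3 :=
  MP72G.tSub3 aG_Lin3 aG_Rsn aG_Spn

theorem aG_ThA3 : MP72G.S_ThA3 :=
  MP72G.tThA3 aG_Zac aG_Rzc aG_Rsn aG_Cnt3 aG_Sub3

theorem aG_Ozb : MP72G.S_Ozb :=
  MP72G.tOzb

theorem aG_Rdf : MP72G.S_Rdf :=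
  MP72G.tRdf aG_Ozb

theorem aG_Cmx : MP72G.S_Cmx :=
  MP72G.tCmx aG_Ozb

theorem aG_Nsb : MP72G.S_Nsb :=
  MP72G.tNsb aG_Ozb aG_Rdf aG_Cmx

theorem aG_PrI : MP72G.S_PrI :=
  MP72G.tPrI aG_Ozb aG_Rdf aG_Nsb aG_ThA3

theorem aG_PrE : MP72G.S_PrE :=
  MP72G.tPrE aG_Zac aG_Lin3 aG_Rsn aG_Ozb aG_Rdf

theorem aG_PrA : MP72G.S_PrA :=
  MP72G.tPrA aG_Ozb aG_PrI aG_PrE

theorem aG_Lfo : MP72G.S_Lfo :=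
  MP72G.tLfo aG_Ozb

theorem aG_Sac : MP72G.S_Sac :=
  MP72G.tSac

theorem aG_Spe : MP72G.S_Spe :=
  MP72G.tSpe aG_Sac

theorem aG_Trc : MP72G.S_Trc :=
  MP72G.tTrc

theorem aG_Oin : MP72G.S_Oin :=
  MP72G.tOin MP72A.aP_Frc MP72A.aP_Hst MP72A.aP_Twb MP72A.aP_Twt

theorem aG_Had : MP72G.S_Had :=
  MP72G.tHad aG_Sac

theorem aG_Rlm : MP72G.S_Rlm :=
  MP72G.tRlm aG_Sac aG_Had

theorem aG_Rls : MP72G.S_Rls :=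
  MP72G.tRls MP72A.aP_Hst MP72A.aP_Rgo aG_Sac

theorem aG_Lcu : MP72G.S_Lcu :=
  MP72G.tLcu MP72A.aP_UniF MP72A.aP_Hst MP72A.aP_Rgo

theorem aG_Fnm : MP72G.S_Fnm :=
  MP72G.tFnm MP72A.aP_Uni2 MP72A.aP_Dsc MP72A.aP_Sep MP72A.aP_Hst MP72A.aP_Rgo aG_Lin3 aG_Sac
    aG_Rlm aG_Rls

theorem aG_Fnp : MP72G.S_Fnp :=
  MP72G.tFnp MP72A.aP_Dsc MP72A.aP_Lc1 MP72A.aP_Sep MP72A.aP_Hst MP72A.aP_Rgo aG_Sac aG_Spe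
    aG_Trc aG_Oin aG_Rlm aG_Rls aG_Lcu

theorem aG_Rep : MP72G.S_Rep :=
  MP72G.tRep MP72A.aP_Dsc MP72A.aP_Hst MP72A.aP_Rgo MP72A.aP_Rk1 aG_Sac aG_Spe aG_Oin aG_Rlm
    aG_Rls aG_Fnm aG_Fnp

theorem aG_Vaf : MP72G.S_Vaf :=
  MP72G.tVaf MP72A.aP_Dsc MP72A.aP_Has MP72A.aP_Hst MP72A.aP_Rgo aG_Sac aG_Oin aG_Had aG_Rlm
    aG_Rls

theorem aG_Ndx : MP72G.S_Ndx :=
  MP72G.tNdx aG_Lin3 aG_Act3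

theorem aG_Ndm : MP72G.S_Ndm :=
  MP72G.tNdm MP72A.aP_Dsc MP72A.aP_Hst MP72A.aP_Rk1 MP72A.aP_Lnz aG_Sac aG_Rls

theorem aG_Asm : MP72G.S_Asm :=
  MP72G.tAsm MP72A.aP_Hst MP72A.aP_Has MP72A.aP_Asl

theorem aG_Bgz : MP72G.S_Bgz :=
  MP72G.tBgz MP72A.aP_Hst MP72A.aP_Bgl

theorem aG_Bsx : MP72G.S_Bsx :=
  MP72G.tBsx

theorem aG_Cdx : MP72G.S_Cdx :=
  MP72G.tCdx aG_Lin3 aG_Act3 aG_The3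

theorem aG_Nnz : MP72G.S_Nnz :=
  MP72G.tNnz MP72A.aP_Hst MP72A.aP_Rgo aG_Sac aG_Trc aG_Rlm aG_Rls aG_Lcu aG_Bsx

theorem aG_Ndz : MP72G.S_Ndz :=
  MP72G.tNdz MP72A.aP_Hst aG_Act3 aG_Rep aG_Vaf aG_Ndx aG_Ndm aG_Asm aG_Bgz aG_Bsx aG_Cdx aG_Nnz

theorem aG_G3z : MP72G.S_G3z :=
  MP72G.tG3z MP72A.aP_Na MP72A.aP_FiK MP72A.aP_Has MP72A.aP_Hst MP72A.aP_Rgo MP72A.aP_S0x
    MP72A.aP_Lts aG_Ndz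

theorem aG_GfM : MP72G.S_GfM :=
  MP72G.tGfM

theorem aG_Jex : MP72G.S_Jex :=
  MP72G.tJex

theorem aG_Jgl : MP72G.S_Jgl :=
  MP72G.tJgl MP72A.aP_Has

theorem aG_Plm : MP72G.S_Plm :=
  MP72G.tPlm MP72A.aP_Na MP72A.aP_Abv

theorem aG_HsM : MP72G.S_HsM :=
  MP72G.tHsM MP72A.aP_Na MP72A.aP_Ntr MP72A.aP_Exn

theorem aG_Tow : MP72G.S_Tow :=
  MP72G.tTow

theorem aG_Ial : MP72G.S_Ial :=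
  MP72G.tIal MP72A.aP_Alm

theorem aG_Twm : MP72G.S_Twm :=
  MP72G.tTwm MP72A.aP_Ntr MP72A.aP_Alm aG_GfM aG_Tow aG_Ial

theorem aG_OmM : MP72G.S_OmM :=
  MP72G.tOmM MP72A.aP_Twb aG_ItgP aG_HsM

theorem aG_PiM : MP72G.S_PiM :=
  MP72G.tPiM MP72A.aP_Has aG_GfM aG_HsM aG_OmM MP72A.aP_Hst MP72A.aP_Rgo

theorem aG_Stb : MP72G.S_Stb :=
  MP72G.tStb MP72A.aP_Lc1 MP72A.aP_Lc2 MP72A.aP_Res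

theorem aG_Trn : MP72G.S_Trn :=
  MP72G.tTrn MP72A.aP_Na

theorem aG_StD : MP72G.S_StD :=
  MP72G.tStD MP72A.aP_Dsc MP72A.aP_Lc1 MP72A.aP_Lc2 MP72A.aP_Rgo aG_Stb

theorem aG_Dcg : MP72G.S_Dcg :=
  MP72G.tDcg MP72A.aP_Rgo aG_GfM aG_Jgl aG_Trn aG_StD

theorem aG_ShF : MP72G.S_ShF :=
  MP72G.tShF

theorem aG_ShA : MP72G.S_ShA :=
  MP72G.tShA aG_ShF

theorem aG_Bfn : MP72G.S_Bfn :=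
  MP72G.tBfn MP72A.aP_Lc1

theorem aG_PwM : MP72G.S_PwM :=
  MP72G.tPwM MP72A.aP_Has MP72A.aP_Hst MP72A.aP_Rgo aG_GfM aG_Dcg

theorem aG_DpM : MP72G.S_DpM :=
  MP72G.tDpM MP72A.aP_Na MP72A.aP_Dsc MP72A.aP_Hst MP72A.aP_Dep aG_GfM aG_Bfn aG_PwM

theorem aG_TrM : MP72G.S_TrM :=
  MP72G.tTrM

theorem aG_IsO : MP72G.S_IsO :=
  MP72G.tIsO MP72A.aV_It MP72A.aP_ItT

theorem aG_GcM : MP72G.S_GcM :=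
  MP72G.tGcM MP72A.aV_Bas MP72A.aV_Or MP72A.aP_BasT

theorem aG_QPm : MP72G.S_QPm :=
  MP72G.tQPm MP72A.aP_Has MP72A.aP_Hst MP72A.aP_Rgo aG_Jgl aG_TrM aG_IsO aG_GcM

theorem aG_OneP : MP72G.S_OneP :=
  MP72G.tOneP MP72A.aV_Bas MP72A.aV_Or MP72A.aP_VSr MP72A.aP_Has MP72A.aP_Hst MP72A.aP_Rgo
    MP72A.aP_Fr1V MP72A.aP_OneV MP72A.aP_EN MP72A.aP_UnW MP72A.aP_LoW MP72A.aP_Nbd aG_G3z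

theorem aG_OneT : MP72G.S_OneT :=
  MP72G.tOneT MP72A.aP_BasT MP72A.aP_VSrT MP72A.aP_Has MP72A.aP_Hst MP72A.aP_Rgo MP72A.aP_Fr1VT
    MP72A.aP_OneVT MP72A.aP_ENT MP72A.aP_UnWT MP72A.aP_LoWT MP72A.aP_NbdT aG_G3z

theorem aG_Rex : MP72G.S_Rex :=
  MP72G.tRex MP72A.aV_Rk MP72A.aP_RkT MP72A.aP_Alp MP72A.aP_AlpT

theorem aG_PsC : MP72G.S_PsC :=
  MP72G.tPsC MP72A.aV_Bas MP72A.aP_BasT MP72A.aP_PsiV MP72A.aP_PsiVT aG_IsO aG_GcM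

theorem aG_Lti : MP72G.S_Lti :=
  MP72G.tLti aG_Ozb

theorem aG_Rdi : MP72G.S_Rdi :=
  MP72G.tRdi aG_Ozb aG_Lti

theorem aG_KrM : MP72G.S_KrM :=
  MP72G.tKrM aG_Lfo aG_Zac aG_Lin3 aG_Rdf aG_PrA aG_GfM MP72A.aP_Hst aG_Dcg aG_ShA aG_Lti aG_Rdi

theorem aG_ThmM : MP72G.S_ThmM :=
  MP72G.tThmM MP72A.aP_Na MP72A.aP_Ntr MP72A.aP_FiK aG_GfM aG_Jex aG_Plm aG_HsM aG_Twm aG_PiM
    aG_DpM aG_GcM aG_QPm aG_Lfo aG_G3z aG_OneP aG_OneT aG_Rex aG_PsC aG_KrM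

theorem aG_GdZ : MP72G.S_GdZ :=
  MP72G.tGdZ MP72A.aP_Has MP72A.aP_Fdg MP72A.aP_IdxE MP72A.aP_IdxET MP72A.aP_Eql

theorem aG_FinM : MP72G.S_FinM :=
  MP72G.tFinM MP72A.aP_Na aG_GcM aG_ThmM aG_GdZ

theorem aG_VchG : MP72G.S_VchG :=
  MP72G.tVchG

theorem aG_UniM : MP72G.S_UniM :=
  MP72G.tUniM MP72A.aP_Sgf MP72A.aP_Nfp aG_FinM aG_VchG

end Pool.Agent.MP72T4
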